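import Mathlib
import Pool.Agent.H.MP_5f6599_gt.Main

set_option autoImplicit false

namespace Pool.Agent.Results.MP_f351c6_gt.Main

open Set Topology Filter

universe u v

theorem result (X : Type u) [TopologicalSpace X] [Nontrivial X] (G : Type v) [CommGroup G]
    (f : G → X)
    (hf : ∀ M : Set G, M.Countable → ∀ p : M → X, ∃ g : G, ∀ m : M, f (m * g) = p m) :
    ¬ (T2Space (range fun g x : G => f (x * g)) ∧
      ParacompactSpace (range fun g x : G => f (x * g))) := by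
  classical
  rintro ⟨h1, h2⟩
  have hD : ∀ J : Set G, J.Countable → ∀ x : G → X, ∃ d ∈ range fun g x : G => f (x * g),
      ∀ i ∈ J, d i = x i := fun J hJ x =>
    let ⟨g, hg⟩ := hf J hJ fun m => x m; ⟨_, ⟨g, rfl⟩, fun i hi => hg ⟨i, hi⟩⟩
  obtain ⟨V, a, b, h3, h4, h5⟩ : ∃ (V : Set X) (a b : X), IsOpen V ∧ a ∉ V ∧ b ∈ V := by
    by_contra h
    push Not at h
    obtain ⟨a, b, hab⟩ := exists_pair_ne X
    obtain ⟨d, h3, h4⟩ := hD {1} (countable_singleton 1) fun _ => a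
    obtain ⟨e, h5, h6⟩ := hD {1} (countable_singleton 1) fun _ => b
    obtain ⟨U, W, h7, -, h8, h9, h10⟩ := t2_separation (x := (⟨d, h3⟩ : range _)) (y := ⟨e, h5⟩)
      fun h => hab (by rw [← h4 1 rfl, ← h6 1 rfl, show d = e from Subtype.ext_iff.1 h])
    obtain ⟨V, hV, rfl⟩ := isOpen_induced_iff.1 h7
    obtain ⟨F, w, c1, c2⟩ := isOpen_pi_iff.1 hV d h8
    refine disjoint_left.1 h10 (c2 fun i hi => ?_) h9
    by_contra c3
    exact h _ _ _ (c1 i hi).1 c3 (c1 i hi).2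
  obtain ⟨F, _, rfl, T, hT⟩ := H.MP_5f6599_gt.key hD (fun g => {y | y.1 g ∈ V})
    (fun g => h3.preimage ((continuous_apply g).comp continuous_subtype_val)) (by
      refine eq_univ_of_forall ?_
      rintro ⟨_, h, rfl⟩
      obtain ⟨g, hg⟩ := hf {1} (countable_singleton 1) fun _ => b
      refine mem_iUnion.2 ⟨g * h⁻¹, ?_⟩
      simpa [← hg ⟨1, rfl⟩] using h5) ∅ (fun _ => ⟨atTop, inferInstance, le_rfl, fun _ => a, by simp⟩)
    (fun _ q => q = fun _ => a) _ rfl fun _ q _ h _ => ⟨q, h, fun _ _ => rfl⟩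
  obtain ⟨d, h6, h7⟩ := hD (F ∪ T) (F.countable_toSet.union T.countable_toSet) fun _ => a
  obtain ⟨g, h8, h9⟩ := hT ⟨d, h6⟩ fun i hi _ => h7 i (Or.inl hi)
  exact h4 (h7 g (Or.inr h8) ▸ h9)

end Pool.Agent.Results.MP_f351c6_gt.Main
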